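import Pool.Agent.R451.MadGraph

/-!
# The maximum of `Mad(G) · Mad(Gᶜ)` is attained by a clique-type graph
-/

open Pool.Agent.R451.Mad

namespace Pool.Agent.Results.MP_0f9677_co.CliqueTypeExtremal

/-- For every `n ≥ 1` some clique-type graph `G_{n,x}` with `1 ≤ x ≤ n` attains the maximum of
`Mad(G) · Mad(Gᶜ)` over the graphs on `n` vertices. -/
theorem result (n : ℕ) (hn : 1 ≤ n) : ∃ x, 1 ≤ x ∧ x ≤ n ∧
    ∀ G : SimpleGraph (Fin n), mad G * mad Gᶜ ≤ mad (cliqueType n x) * mad (cliqueType n x)ᶜ := by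
  have hx : 1 ≤ xs n := by unfold xs; omega
  exact ⟨xs n, hx, xs_le hn, fun G => (mad_mul_le hn G).trans
    (le_mad_cliqueType (xs n) hx (xs_le hn))⟩

end Pool.Agent.Results.MP_0f9677_co.CliqueTypeExtremal
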