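import Pool.Agent.R451.MadGraph

/-!
# The maximum of `Mad(G) · Mad(Gᶜ)` over the graphs with `n` vertices
-/

open Pool.Agent.R451.Mad

namespace Pool.Agent.Results.MP_0f9677_co.MadProduct

/-- `x*(n) = ⌊(1 + ⌊√(12 n (n - 1) + 1)⌋) / 6⌋ + 1`, the least positive integer `x` with
`x (3 x - 1) > n (n - 1)`. -/
def xStar (n : ℕ) : ℕ := (1 + Nat.sqrt (12 * n * (n - 1) + 1)) / 6 + 1

/-- The maximum of `Mad(G) · Mad(Gᶜ)` over the graphs `G` on `n` vertices is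
`(x* - 1) (n (n - 1) - x* (x* - 1)) / n`. -/
theorem result (n : ℕ) (hn : 1 ≤ n) :
    IsGreatest {r : ℝ | ∃ G : SimpleGraph (Fin n), r = mad G * mad Gᶜ}
      (((xStar n : ℝ) - 1) * ((n : ℝ) * (n - 1) - xStar n * (xStar n - 1)) / n) := by
  have hx : 1 ≤ xStar n := by unfold xStar; omega
  have hxn : xStar n ≤ n := xs_le hn
  refine ⟨⟨cliqueType n (xStar n), le_antisymm ?_ ?_⟩, ?_⟩
  · exact le_mad_cliqueType (xStar n) hx hxn
  · exact mad_mul_le hn _
  · rintro r ⟨G, rfl⟩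
    exact mad_mul_le hn G

end Pool.Agent.Results.MP_0f9677_co.MadProduct
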